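import Pool.Agent.Results.MP_3923f3_nt.OneLargeCoefficient
import Pool.Agent.Results.MP_3923f3_nt.ThreeLargeCoefficients
import Pool.Agent.V11312.PW.DigitsVec
import Pool.Agent.V11312.PW.Signs

/-!
# Baker's constant: small prime solutions of ALL equations with coefficients in random residue classes

Let `m_j` be the product of the first `j` of arbitrary bases `g_i + 2 ≥ 2` (for example `m_j = q ^ j` or `m_j = (j + 1)!`) and let
`n_j` be the residue class modulo `m_j` with independent uniform digits `ω_0, …, ω_(j-1)`. (1) For almost all `ω`, the conjectured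
exponent `1 + ε` holds for all equations `a p + b q + c r = d` with `c ≡ n_j (mod m_j)`, `|c| ≤ m_j (log m_j) ^ B`,
`|a|, |b| ≤ (log |c|) ^ T` and arbitrary `d`, for all large `j`. (2) For three independent sequences of digits the exponent
`2 + ε` holds for all equations with `a`, `b`, `c` in the three classes modulo `m_j`, of absolute value at most
`m_j (log m_j) ^ B`, and arbitrary `d`, for all large `j`.
-/

set_option autoImplicit false

namespace Pool.Agent.Results.MP_3923f3_nt.CoefficientsInResidueClasses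

open Finset Filter Topology MeasureTheory
open Pool.Agent.V11312.PD

/-- the admissible quadruples: `a`, `b`, `c` are nonzero and not of the same sign, `a + b + c - d` is even,
and each of `gcd(a, b, c)`, `gcd(d, a, b)`, `gcd(d, a, c)`, `gcd(d, b, c)` is one -/
def Admissible (a b c d : ℤ) : Prop :=
  a ≠ 0 ∧ b ≠ 0 ∧ c ≠ 0 ∧ ¬ (0 < a ∧ 0 < b ∧ 0 < c) ∧ ¬ (a < 0 ∧ b < 0 ∧ c < 0) ∧ Even (a + b + c - d) ∧
    Int.gcd (Int.gcd a b) c = 1 ∧ Int.gcd (Int.gcd d a) b = 1 ∧ Int.gcd (Int.gcd d a) c = 1 ∧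
    Int.gcd (Int.gcd d b) c = 1

/-- `a p + b q + c r = d` has a solution in primes with `max (p, q, r) ≤ 3 |d| + m ^ μ`,
`m = max (3, |a|, |b|, |c|)` -/
def SmallSolution (μ : ℝ) (a b c d : ℤ) : Prop :=
  ∃ p q r : ℕ, p.Prime ∧ q.Prime ∧ r.Prime ∧ a * p + b * q + c * r = d ∧
    ((max p (max q r) : ℕ) : ℝ) ≤ 3 * |(d : ℝ)| + ((max 3 (max |a| (max |b| |c|)) : ℤ) : ℝ) ^ μ

lemma adm {a b c d : ℤ} (h : Admissible a b c d) : Pool.Agent.Y883.T5.Admissible a b c d := by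
  obtain ⟨h1, h2, h3, h4, h5, h6, h7, h8, h9, h10⟩ := h
  exact ⟨h1, h2, h3, h4, h5, h6, h7, h8, h9, h10⟩

lemma mono {μ ν : ℝ} (h : μ ≤ ν) {a b c d : ℤ} (hs : SmallSolution μ a b c d) : SmallSolution ν a b c d := by
  obtain ⟨p, q, r, h1, h2, h3, h4, h5⟩ := hs
  refine ⟨p, q, r, h1, h2, h3, h4, h5.trans ?_⟩
  have h6 : (1 : ℝ) ≤ ((max 3 (max |a| (max |b| |c|)) : ℤ) : ℝ) := by
    have : (1 : ℤ) ≤ max 3 (max |a| (max |b| |c|)) := le_trans (by norm_num) (le_max_left _ _)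
    exact_mod_cast this
  have := Real.rpow_le_rpow_of_exponent_le h6 h
  linarith

lemma exists_j {ε : ℝ} (hε : 0 < ε) : ∃ j : ℕ, 1 / ((j : ℝ) + 1) ≤ ε := by
  obtain ⟨j, hj⟩ := exists_nat_ge (1 / ε)
  refine ⟨j, ?_⟩
  rw [div_le_iff₀ hε] at hj
  rw [div_le_iff₀ (by positivity)]
  nlinarith

/-- **Theorem.** Let `g_i + 2` be arbitrary bases.

(1) For almost all digits `ω`, for all `ε > 0`, `B` and `T` and all large `j`: all admissible equations with
`c ≡ n_j (mod m_j)`, `|c| ≤ m_j (log m_j) ^ B`, `|a|, |b| ≤ (log |c|) ^ T` and arbitrary `d` have a solution in primes with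
`max (p, q, r) ≤ 3 |d| + m ^ (1 + ε)`.

(2) For almost all triples of sequences of digits, for all `ε > 0` and `B` and all large `j`: all admissible equations with
`a`, `b`, `c` in the three classes modulo `m_j`, of absolute value at most `m_j (log m_j) ^ B`, and arbitrary `d` have a
solution in primes with `max (p, q, r) ≤ 3 |d| + m ^ (2 + ε)`.

(3) `m_j = q ^ j` and `m_j = (j + 1)!` are examples. -/
theorem result :
    (∀ g : ℕ → ℕ,
      (∀ᵐ ω ∂(law g), ∀ ε : ℝ, 0 < ε → ∀ B T : ℕ, ∃ j₀ : ℕ, ∀ j : ℕ, j₀ ≤ j → ∀ a b c d : ℤ,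
        Admissible a b c d → InClass g ω B j c →
        |(a : ℝ)| ≤ Real.log |(c : ℝ)| ^ T → |(b : ℝ)| ≤ Real.log |(c : ℝ)| ^ T → SmallSolution (1 + ε) a b c d) ∧
      (∀ᵐ ω ∂(Measure.pi fun _ : Fin 3 => law g), ∀ ε : ℝ, 0 < ε → ∀ B : ℕ, ∃ j₀ : ℕ, ∀ j : ℕ, j₀ ≤ j →
        ∀ a b c d : ℤ, Admissible a b c d → InClass g (ω 0) B j a → InClass g (ω 1) B j b → InClass g (ω 2) B j c →
        SmallSolution (2 + ε) a b c d)) ∧
    (∀ q : ℕ, 2 ≤ q → ∀ j, modulus (fun _ => q - 2) j = q ^ j) ∧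
    (∀ j : ℕ, modulus (fun i => i) j = (j + 1).factorial) := by
  classical
  refine ⟨fun g => ⟨?_, ?_⟩, modulus_const, modulus_id⟩
  · have hcd := OneLargeCoefficient.result
    obtain ⟨-, -, -, h3⟩ := hcd
    set Good : ℕ → ℕ → ℤ → Prop := fun j T c => ∀ a b d : ℤ, Pool.Agent.Y883.T5.Admissible a b c d →
      |(a : ℝ)| ≤ Real.log |(c : ℝ)| ^ T → |(b : ℝ)| ≤ Real.log |(c : ℝ)| ^ T →
      Pool.Agent.Y883.T6.SmallSolution (1 + 1 / ((j : ℝ) + 1)) a b c d with hGood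
    have hall := ae_family g (ι := ℕ × ℕ) (fun i c => Good i.1 i.2 c) (fun i => both_signs
      (fun N => ¬ ∀ a b c d : ℤ, Pool.Agent.Y883.T5.Admissible a b c d → c.natAbs = N →
        |(a : ℝ)| ≤ Real.log |(c : ℝ)| ^ i.2 → |(b : ℝ)| ≤ Real.log |(c : ℝ)| ^ i.2 →
        Pool.Agent.Y883.T6.SmallSolution (1 + 1 / ((i.1 : ℝ) + 1)) a b c d)
      (fun P => by
        obtain ⟨X₀, hX₀⟩ := h3 (1 / ((i.1 : ℝ) + 1)) (by positivity) P i.2
        refine ⟨X₀, fun X hX => ?_⟩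
        have e : {N : ℕ | 1 ≤ N ∧ N ≤ X ∧ ¬ ∀ a b c d : ℤ, Pool.Agent.Y883.T5.Admissible a b c d → c.natAbs = N →
            |(a : ℝ)| ≤ Real.log |(c : ℝ)| ^ i.2 → |(b : ℝ)| ≤ Real.log |(c : ℝ)| ^ i.2 →
            Pool.Agent.Y883.T6.SmallSolution (1 + 1 / ((i.1 : ℝ) + 1)) a b c d} =
            (((Icc 1 X).filter (fun N : ℕ => ¬ ∀ a b c d : ℤ, Pool.Agent.Y883.T5.Admissible a b c d → c.natAbs = N →
            |(a : ℝ)| ≤ Real.log |(c : ℝ)| ^ i.2 → |(b : ℝ)| ≤ Real.log |(c : ℝ)| ^ i.2 →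
            Pool.Agent.Y883.T6.SmallSolution (1 + 1 / ((i.1 : ℝ) + 1)) a b c d) : Finset ℕ) : Set ℕ) := by
          ext N
          simp only [Set.mem_ofPred_eq, coe_filter, mem_Icc, and_assoc]
        rw [e, Set.ncard_coe_finset]
        convert hX₀ X hX)
      (fun c => Good i.1 i.2 c)
      (fun c hc => by
        simp only [hGood] at hc
        push Not at hc
        obtain ⟨a, b, d, h4, h5, h6, h7⟩ := hc
        exact ⟨h4.c_ne, fun hcon => h7 (hcon a b c d h4 rfl h5 h6)⟩))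
    filter_upwards [hall] with ω hω ε hε B T
    obtain ⟨n, hn⟩ := exists_j hε
    obtain ⟨j₀, hj₀⟩ := hω (n, T) B
    refine ⟨j₀, fun j hj a b c d hadm hw ha hb => ?_⟩
    have h5 : SmallSolution (1 + 1 / ((n : ℝ) + 1)) a b c d := hj₀ j hj c hw a b d (adm hadm) ha hb
    exact mono (by linarith) h5
  · have hcd := ThreeLargeCoefficients.result
    obtain ⟨-, -, -, h3⟩ := hcd
    set Good : ℕ → (Fin 3 → ℤ) → Prop := fun j k => ∀ d : ℤ, Pool.Agent.Y883.T5.Admissible (k 0) (k 1) (k 2) d →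
      Pool.Agent.Y883.T6.SmallSolution (2 + 1 / ((j : ℝ) + 1)) (k 0) (k 1) (k 2) d with hGood
    have hall : ∀ᵐ ω ∂(Measure.pi fun _ : Fin 3 => law g), ∀ n B : ℕ, ∃ j₀ : ℕ, ∀ j : ℕ, j₀ ≤ j → ∀ k : Fin 3 → ℤ,
        (∀ i, InClass g (ω i) B j (k i)) → ¬ ¬ Good n k := by
      rw [ae_all_iff]
      intro n
      rw [ae_all_iff]
      intro B
      refine ae_classes_vec g (fun k => ¬ Good n k) (all_signs
        (fun t => ¬ ∀ a b c d : ℤ, Pool.Agent.Y883.T5.Admissible a b c d →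
          a.natAbs = t.1 → b.natAbs = t.2.1 → c.natAbs = t.2.2 →
          Pool.Agent.Y883.T6.SmallSolution (2 + 1 / ((n : ℝ) + 1)) a b c d)
        (fun P => by
          obtain ⟨X₀, hX₀⟩ := h3 (1 / ((n : ℝ) + 1)) (by positivity) P
          refine ⟨X₀, fun X hX => ?_⟩
          have e : {N : ℕ × ℕ × ℕ | (1 ≤ N.1 ∧ N.1 ≤ X) ∧ (1 ≤ N.2.1 ∧ N.2.1 ≤ X) ∧ (1 ≤ N.2.2 ∧ N.2.2 ≤ X) ∧
              ¬ ∀ a b c d : ℤ, Pool.Agent.Y883.T5.Admissible a b c d →
              a.natAbs = N.1 → b.natAbs = N.2.1 → c.natAbs = N.2.2 →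
              Pool.Agent.Y883.T6.SmallSolution (2 + 1 / ((n : ℝ) + 1)) a b c d} =
              (((Icc 1 X ×ˢ Icc 1 X ×ˢ Icc 1 X).filter (fun t : ℕ × ℕ × ℕ =>
              ¬ ∀ a b c d : ℤ, Pool.Agent.Y883.T5.Admissible a b c d →
              a.natAbs = t.1 → b.natAbs = t.2.1 → c.natAbs = t.2.2 →
              Pool.Agent.Y883.T6.SmallSolution (2 + 1 / ((n : ℝ) + 1)) a b c d) : Finset (ℕ × ℕ × ℕ)) :
                Set (ℕ × ℕ × ℕ)) := by
            ext N
            simp only [Set.mem_ofPred_eq, coe_filter, mem_product, mem_Icc, and_assoc]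
          rw [e, Set.ncard_coe_finset]
          convert hX₀ X hX)
        (fun k => Good n k)
        (fun k hk => by
          simp only [hGood] at hk
          push Not at hk
          obtain ⟨d, h4, h5⟩ := hk
          refine ⟨fun i => ?_, fun hcon => h5 (hcon (k 0) (k 1) (k 2) d h4 rfl rfl rfl)⟩
          fin_cases i
          · exact h4.a_ne
          · exact h4.b_ne
          · exact h4.c_ne)) B
    filter_upwards [hall] with ω hω ε hε B
    obtain ⟨n, hn⟩ := exists_j hε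
    obtain ⟨j₀, hj₀⟩ := hω n B
    refine ⟨j₀, fun j hj a b c d hadm ha hb hc => ?_⟩
    have h4 : Good n ![a, b, c] := not_not.1 (hj₀ j hj ![a, b, c] (fun i => by
      fin_cases i
      · exact ha
      · exact hb
      · exact hc))
    have h5 : SmallSolution (2 + 1 / ((n : ℝ) + 1)) a b c d := h4 d (adm hadm)
    exact mono (by linarith) h5

end Pool.Agent.Results.MP_3923f3_nt.CoefficientsInResidueClasses
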