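import Mathlib

/-!
# Baker's constant is at least `log 13 / log 3 > 7 / 3`

The quadruple `(2, 3, -1, 0)` is admissible and has `m = 3`. The equation `2 p + 3 q = r` has no solution in
primes with `p, q, r < 13` (the smallest one is `2 * 2 + 3 * 3 = 13`). Hence `13 ≤ 3 ^ μ` for every good `μ`.
-/

set_option autoImplicit false

namespace Pool.Agent.Results.MP_3923f3_nt.LowerBoundTwoThree

/-- The quadruple `(a, b, c, d)` of integers is admissible: `a`, `b`, `c` are nonzero and not all of the same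
sign, `a + b + c - d` is even, and `gcd(a, b, c)`, `gcd(d, a, b)`, `gcd(d, a, c)`, `gcd(d, b, c)` are one. -/
def Admissible (a b c d : ℤ) : Prop :=
  a ≠ 0 ∧ b ≠ 0 ∧ c ≠ 0 ∧ ¬ (0 < a ∧ 0 < b ∧ 0 < c) ∧ ¬ (a < 0 ∧ b < 0 ∧ c < 0) ∧ Even (a + b + c - d) ∧
    gcd a (gcd b c) = 1 ∧ gcd d (gcd a b) = 1 ∧ gcd d (gcd a c) = 1 ∧ gcd d (gcd b c) = 1

/-- The real number `μ` is good: for every admissible quadruple the equation `a p + b q + c r = d` has a
solution in primes `p`, `q`, `r` with `max (p, q, r) ≤ 3 |d| + m ^ μ`, where `m = max (3, |a|, |b|, |c|)`.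
Baker's constant is the infimum of the good `μ`. -/
def Good (μ : ℝ) : Prop :=
  ∀ a b c d : ℤ, Admissible a b c d → ∃ p q r : ℕ, p.Prime ∧ q.Prime ∧ r.Prime ∧
    a * p + b * q + c * r = d ∧
    ((max p (max q r) : ℕ) : ℝ) ≤ 3 * |(d : ℝ)| + ((max 3 (max |a| (max |b| |c|)) : ℤ) : ℝ) ^ μ

theorem admissible_two_three : Admissible 2 3 (-1) 0 := by
  refine ⟨by norm_num, by norm_num, by norm_num, by norm_num, by norm_num, by decide, ?_, ?_, ?_, ?_⟩ <;>
    decide

/-- The smallest solution of `2 p + 3 q = r` in primes has `r = 13`. -/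
theorem thirteen_le (p q r : ℕ) (hp : p.Prime) (hq : q.Prime) (hr : r.Prime) (h : 2 * p + 3 * q = r) :
    13 ≤ r := by
  have h1 := hp.two_le
  have h2 := hq.two_le
  by_contra hlt
  have hp4 : p ≤ 3 := by omega
  have hq4 : q ≤ 2 := by omega
  have hq2 : q = 2 := by omega
  subst hq2
  interval_cases p
  · subst h
    revert hr
    norm_num
  · subst h
    revert hr
    norm_num

/-- `log 13 / log 3` is a lower bound for the set of all good real numbers, and it is larger than `7 / 3`. -/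
theorem result : Real.log 13 / Real.log 3 ∈ lowerBounds {μ : ℝ | Good μ} ∧
    (7 : ℝ) / 3 < Real.log 13 / Real.log 3 := by
  have hlog3 : 0 < Real.log 3 := Real.log_pos (by norm_num)
  constructor
  · intro μ hμ
    obtain ⟨p, q, r, hp, hq, hr, h, hle⟩ := hμ 2 3 (-1) 0 admissible_two_three
    have h' : 2 * p + 3 * q = r := by
      have : (2 : ℤ) * p + 3 * q = r := by linarith
      exact_mod_cast this
    have h13 := thirteen_le p q r hp hq hr h'
    have hm : ((max 3 (max |(2 : ℤ)| (max |(3 : ℤ)| |(-1 : ℤ)|)) : ℤ) : ℝ) = 3 := by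
      have : (max 3 (max |(2 : ℤ)| (max |(3 : ℤ)| |(-1 : ℤ)|)) : ℤ) = 3 := by decide
      rw [this]
      norm_num
    rw [hm] at hle
    have h1 : (13 : ℝ) ≤ (3 : ℝ) ^ μ := by
      have h2 : (13 : ℝ) ≤ ((max p (max q r) : ℕ) : ℝ) := by
        have : 13 ≤ max p (max q r) := le_trans h13 (le_trans (le_max_right q r) (le_max_right p _))
        exact_mod_cast this
      calc (13 : ℝ) ≤ ((max p (max q r) : ℕ) : ℝ) := h2
        _ ≤ 3 * |((0 : ℤ) : ℝ)| + (3 : ℝ) ^ μ := hle
        _ = (3 : ℝ) ^ μ := by simp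
    rw [div_le_iff₀ hlog3, ← Real.log_rpow (by norm_num : (0 : ℝ) < 3)]
    exact Real.log_le_log (by norm_num) h1
  · rw [lt_div_iff₀ hlog3]
    have h1 : Real.log ((3 : ℝ) ^ 7) < Real.log ((13 : ℝ) ^ 3) := Real.log_lt_log (by norm_num) (by norm_num)
    rw [Real.log_pow, Real.log_pow] at h1
    push_cast at h1
    linarith

end Pool.Agent.Results.MP_3923f3_nt.LowerBoundTwoThree
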