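import Pool.Agent.Results.MP_3923f3_nt.OneLargeCoefficient
import Pool.Agent.Results.MP_3923f3_nt.ThreeLargeCoefficients
import Pool.Agent.V11285.W4

/-!
# Baker's constant: small prime solutions of ALL equations with coefficients near `α v_n`

Let `v_n` grow at least like `exp (n ^ δ)`, for example `v_n = b ^ n`. For almost all `α > 0` the conjectured exponent
`1 + ε` holds for all equations with `| |c| - α v_n | ≤ (log v_n) ^ B`, `|a|, |b| ≤ (log |c|) ^ T` and arbitrary `d`, for all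
large `n`. For almost all `(α, β, γ)` the exponent `2 + ε` holds for all equations with `|a|`, `|b|`, `|c|` near `α v_n`,
`β v_n`, `γ v_n` and arbitrary `d`.
-/

set_option autoImplicit false

namespace Pool.Agent.Results.MP_3923f3_nt.WindowsOfCoefficients

open Finset Filter Topology MeasureTheory

/-- the admissible quadruples: `a`, `b`, `c` are nonzero and not of the same sign, `a + b + c - d` is even,
and each of `gcd(a, b, c)`, `gcd(d, a, b)`, `gcd(d, a, c)`, `gcd(d, b, c)` is one -/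
def Admissible (a b c d : ℤ) : Prop :=
  a ≠ 0 ∧ b ≠ 0 ∧ c ≠ 0 ∧ ¬ (0 < a ∧ 0 < b ∧ 0 < c) ∧ ¬ (a < 0 ∧ b < 0 ∧ c < 0) ∧ Even (a + b + c - d) ∧
    Int.gcd (Int.gcd a b) c = 1 ∧ Int.gcd (Int.gcd d a) b = 1 ∧ Int.gcd (Int.gcd d a) c = 1 ∧
    Int.gcd (Int.gcd d b) c = 1

/-- `a p + b q + c r = d` has a solution in primes with `max (p, q, r) ≤ 3 |d| + m ^ μ`,
`m = max (3, |a|, |b|, |c|)` -/
def SmallSolution (μ : ℝ) (a b c d : ℤ) : Prop :=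
  ∃ p q r : ℕ, p.Prime ∧ q.Prime ∧ r.Prime ∧ a * p + b * q + c * r = d ∧
    ((max p (max q r) : ℕ) : ℝ) ≤ 3 * |(d : ℝ)| + ((max 3 (max |a| (max |b| |c|)) : ℤ) : ℝ) ^ μ

/-- `v_n` grows at least like `exp (n ^ δ)` for some `δ > 0` -/
def Fast (v : ℕ → ℝ) : Prop := ∃ δ : ℝ, 0 < δ ∧ ∀ᶠ n : ℕ in atTop, (n : ℝ) ^ δ ≤ Real.log (v n)

lemma adm {a b c d : ℤ} (h : Admissible a b c d) : Pool.Agent.Y883.T5.Admissible a b c d := by
  obtain ⟨h1, h2, h3, h4, h5, h6, h7, h8, h9, h10⟩ := h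
  exact ⟨h1, h2, h3, h4, h5, h6, h7, h8, h9, h10⟩

lemma mono {μ ν : ℝ} (h : μ ≤ ν) {a b c d : ℤ} (hs : SmallSolution μ a b c d) : SmallSolution ν a b c d := by
  obtain ⟨p, q, r, h1, h2, h3, h4, h5⟩ := hs
  refine ⟨p, q, r, h1, h2, h3, h4, h5.trans ?_⟩
  have h6 : (1 : ℝ) ≤ ((max 3 (max |a| (max |b| |c|)) : ℤ) : ℝ) := by
    have : (1 : ℤ) ≤ max 3 (max |a| (max |b| |c|)) := le_trans (by norm_num) (le_max_left _ _)
    exact_mod_cast this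
  have := Real.rpow_le_rpow_of_exponent_le h6 h
  linarith

lemma exists_j {ε : ℝ} (hε : 0 < ε) : ∃ j : ℕ, 1 / ((j : ℝ) + 1) ≤ ε := by
  obtain ⟨j, hj⟩ := exists_nat_ge (1 / ε)
  refine ⟨j, ?_⟩
  rw [div_le_iff₀ hε] at hj
  rw [div_le_iff₀ (by positivity)]
  nlinarith

/-- **Theorem.** Let `v_n ≥ 1` grow at least like `exp (n ^ δ)` for some `δ > 0`.

(1) For almost all `α > 0`, for all `ε > 0`, `B` and `T` and all large `n`: all admissible equations with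
`| |c| - α v_n | ≤ (log v_n) ^ B`, `|a|, |b| ≤ (log |c|) ^ T` and arbitrary `d` have a solution in primes with
`max (p, q, r) ≤ 3 |d| + m ^ (1 + ε)`.

(2) For almost all `(α, β, γ)` with positive coordinates, for all `ε > 0` and `B` and all large `n`: all admissible equations
with `| |a| - α v_n |`, `| |b| - β v_n |`, `| |c| - γ v_n | ≤ (log v_n) ^ B` and arbitrary `d` have a solution in primes with
`max (p, q, r) ≤ 3 |d| + m ^ (2 + ε)`.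

(3) `v_n = b ^ n` is an example for all `b > 1`. -/
theorem result :
    (∀ v : ℕ → ℝ, (∀ n, 1 ≤ v n) → Fast v →
      (∀ᵐ α : ℝ, 0 < α → ∀ ε : ℝ, 0 < ε → ∀ B T : ℕ, ∃ n₀ : ℕ, ∀ n : ℕ, n₀ ≤ n → ∀ a b c d : ℤ,
        Admissible a b c d → |(|(c : ℝ)|) - α * v n| ≤ Real.log (v n) ^ B →
        |(a : ℝ)| ≤ Real.log |(c : ℝ)| ^ T → |(b : ℝ)| ≤ Real.log |(c : ℝ)| ^ T → SmallSolution (1 + ε) a b c d) ∧
      (∀ᵐ p : ℝ × ℝ × ℝ, 0 < p.1 → 0 < p.2.1 → 0 < p.2.2 → ∀ ε : ℝ, 0 < ε → ∀ B : ℕ, ∃ n₀ : ℕ, ∀ n : ℕ, n₀ ≤ n →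
        ∀ a b c d : ℤ, Admissible a b c d → |(|(a : ℝ)|) - p.1 * v n| ≤ Real.log (v n) ^ B →
        |(|(b : ℝ)|) - p.2.1 * v n| ≤ Real.log (v n) ^ B → |(|(c : ℝ)|) - p.2.2 * v n| ≤ Real.log (v n) ^ B →
        SmallSolution (2 + ε) a b c d)) ∧
    (∀ b : ℝ, 1 < b → Fast (fun n : ℕ => b ^ n)) := by
  classical
  refine ⟨fun v hv hf => ⟨?_, ?_⟩, fun b hb => Pool.Agent.V11285.W4.fast_geom b hb⟩
  · have hcd := OneLargeCoefficient.result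
    obtain ⟨-, -, -, h3⟩ := hcd
    set Bad : ℕ → ℕ → ℕ → Prop := fun j T N => ¬ ∀ a b c d : ℤ, Pool.Agent.Y883.T5.Admissible a b c d → c.natAbs = N →
      |(a : ℝ)| ≤ Real.log |(c : ℝ)| ^ T → |(b : ℝ)| ≤ Real.log |(c : ℝ)| ^ T →
      Pool.Agent.Y883.T6.SmallSolution (1 + 1 / ((j : ℝ) + 1)) a b c d with hBad
    have hbad : ∀ j T P : ℕ, ∃ X₀ : ℕ, ∀ X : ℕ, X₀ ≤ X →
        ({N : ℕ | 1 ≤ N ∧ N ≤ X ∧ Bad j T N}.ncard : ℝ) ≤ X / Real.log X ^ P := by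
      intro j T P
      obtain ⟨X₀, hX₀⟩ := h3 (1 / ((j : ℝ) + 1)) (by positivity) P T
      refine ⟨X₀, fun X hX => ?_⟩
      have e : {N : ℕ | 1 ≤ N ∧ N ≤ X ∧ Bad j T N} = (((Icc 1 X).filter (fun n : ℕ => Bad j T n) : Finset ℕ) : Set ℕ) := by
        ext N
        simp only [Set.mem_ofPred_eq, coe_filter, mem_Icc, and_assoc]
      rw [e, Set.ncard_coe_finset]
      convert hX₀ X hX
    have hall : ∀ᵐ α : ℝ, ∀ j T B : ℕ, 0 < α → ∃ n₀ : ℕ, ∀ n : ℕ, n₀ ≤ n → ∀ N : ℕ, 1 ≤ N →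
        |(N : ℝ) - α * v n| ≤ (Real.log (v n)) ^ B → ¬ Bad j T N := by
      rw [ae_all_iff]
      intro j
      rw [ae_all_iff]
      intro T
      rw [ae_all_iff]
      intro B
      exact Pool.Agent.V11285.W4.ae_log (Bad j T) (hbad j T) hv hf B
    filter_upwards [hall] with α hα hα0 ε hε B T
    obtain ⟨j, hj⟩ := exists_j hε
    obtain ⟨n₀, hn₀⟩ := hα j T B hα0
    refine ⟨n₀, fun n hn a b c d hadm hw ha hb => ?_⟩
    have hc1 : 1 ≤ c.natAbs := Int.natAbs_pos.2 hadm.2.2.1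
    have hcr : ((c.natAbs : ℕ) : ℝ) = |(c : ℝ)| := by rw [Nat.cast_natAbs, Int.cast_abs]
    have h4 := hn₀ n hn c.natAbs hc1 (by rw [hcr]; exact hw)
    rw [hBad] at h4
    simp only [not_not] at h4
    have h5 := h4 a b c d (adm hadm) rfl ha hb
    exact mono (by linarith) h5
  · have hcd := ThreeLargeCoefficients.result
    obtain ⟨-, -, -, h3⟩ := hcd
    set Bad : ℕ → ℕ × ℕ × ℕ → Prop := fun j t => ¬ ∀ a b c d : ℤ, Pool.Agent.Y883.T5.Admissible a b c d →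
      a.natAbs = t.1 → b.natAbs = t.2.1 → c.natAbs = t.2.2 →
      Pool.Agent.Y883.T6.SmallSolution (2 + 1 / ((j : ℝ) + 1)) a b c d with hBad
    have hbad : ∀ j P : ℕ, ∃ X₀ : ℕ, ∀ X : ℕ, X₀ ≤ X →
        ({N : ℕ × ℕ × ℕ | (1 ≤ N.1 ∧ N.1 ≤ X) ∧ (1 ≤ N.2.1 ∧ N.2.1 ≤ X) ∧ (1 ≤ N.2.2 ∧ N.2.2 ≤ X) ∧
          Bad j N}.ncard : ℝ) ≤ (X : ℝ) ^ 3 / Real.log X ^ P := by
      intro j P
      obtain ⟨X₀, hX₀⟩ := h3 (1 / ((j : ℝ) + 1)) (by positivity) P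
      refine ⟨X₀, fun X hX => ?_⟩
      have e : {N : ℕ × ℕ × ℕ | (1 ≤ N.1 ∧ N.1 ≤ X) ∧ (1 ≤ N.2.1 ∧ N.2.1 ≤ X) ∧ (1 ≤ N.2.2 ∧ N.2.2 ≤ X) ∧ Bad j N} =
          (((Icc 1 X ×ˢ Icc 1 X ×ˢ Icc 1 X).filter (fun t : ℕ × ℕ × ℕ => Bad j t) : Finset (ℕ × ℕ × ℕ)) :
            Set (ℕ × ℕ × ℕ)) := by
        ext N
        simp only [Set.mem_ofPred_eq, coe_filter, mem_product, mem_Icc, and_assoc]
      rw [e, Set.ncard_coe_finset]
      convert hX₀ X hX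
    have hall : ∀ᵐ p : ℝ × ℝ × ℝ, ∀ j B : ℕ, 0 < p.1 → 0 < p.2.1 → 0 < p.2.2 → ∃ n₀ : ℕ, ∀ n : ℕ, n₀ ≤ n →
        ∀ N : ℕ × ℕ × ℕ, 1 ≤ N.1 → 1 ≤ N.2.1 → 1 ≤ N.2.2 → |(N.1 : ℝ) - p.1 * v n| ≤ (Real.log (v n)) ^ B →
        |(N.2.1 : ℝ) - p.2.1 * v n| ≤ (Real.log (v n)) ^ B → |(N.2.2 : ℝ) - p.2.2 * v n| ≤ (Real.log (v n)) ^ B →
        ¬ Bad j N := by
      rw [ae_all_iff]
      intro j
      rw [ae_all_iff]
      intro B
      exact Pool.Agent.V11285.W4.ae_log3 (Bad j) (hbad j) hv hf B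
    filter_upwards [hall] with p hp hp1 hp2 hp3 ε hε B
    obtain ⟨j, hj⟩ := exists_j hε
    obtain ⟨n₀, hn₀⟩ := hp j B hp1 hp2 hp3
    refine ⟨n₀, fun n hn a b c d hadm hw1 hw2 hw3 => ?_⟩
    have hcr : ∀ z : ℤ, ((z.natAbs : ℕ) : ℝ) = |(z : ℝ)| := fun z => by rw [Nat.cast_natAbs, Int.cast_abs]
    have h4 := hn₀ n hn (a.natAbs, b.natAbs, c.natAbs) (Int.natAbs_pos.2 hadm.1) (Int.natAbs_pos.2 hadm.2.1)
      (Int.natAbs_pos.2 hadm.2.2.1) (by rw [hcr]; exact hw1) (by rw [hcr]; exact hw2) (by rw [hcr]; exact hw3)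
    rw [hBad] at h4
    simp only [not_not] at h4
    have h5 := h4 a b c d (adm hadm) rfl rfl rfl
    exact mono (by linarith) h5

end Pool.Agent.Results.MP_3923f3_nt.WindowsOfCoefficients
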